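import Pool.Agent.Helper46.CU.Stmts

set_option autoImplicit false

namespace Pool.Agent.Helper46.CU

open Finset

theorem red_sq {g n : ℕ} (hg : 0 < g) (h : IsSquare (g ^ 2 * n)) : IsSquare n := by
  obtain ⟨k, hk⟩ := h
  have h1 : g ^ 2 ∣ k ^ 2 := ⟨n, by rw [hk]; ring⟩
  have h2 : g ∣ k := (Nat.pow_dvd_pow_iff (by norm_num)).mp h1
  obtain ⟨j, rfl⟩ := h2
  refine ⟨j, ?_⟩
  have h3 : g ^ 2 * n = g ^ 2 * (j * j) := by rw [hk]; ring
  exact Nat.eq_of_mul_eq_mul_left (by positivity) h3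

theorem st_RED : ST_RED := by
  intro a b ha hab hsq
  have ha3 : 1 < a ^ 3 := Nat.one_lt_pow (by norm_num) (by omega)
  have hab3 : a ^ 3 < b ^ 3 := Nat.pow_lt_pow_left hab (by norm_num)
  have hu0 : 0 < a ^ 3 - 1 := by omega
  have hg : 0 < Nat.gcd (a ^ 3 - 1) (b ^ 3 - 1) := Nat.gcd_pos_of_pos_left _ hu0
  obtain ⟨u, hu⟩ := Nat.gcd_dvd_left (a ^ 3 - 1) (b ^ 3 - 1)
  obtain ⟨v, hv⟩ := Nat.gcd_dvd_right (a ^ 3 - 1) (b ^ 3 - 1)
  set g := Nat.gcd (a ^ 3 - 1) (b ^ 3 - 1) with hgdef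
  have hcop : Nat.Coprime u v := by
    have h1 := Nat.gcd_mul_left g u v
    rw [← hu, ← hv, ← hgdef] at h1
    have h2 : g * 1 = g * Nat.gcd u v := by rw [mul_one]; exact h1
    exact (Nat.eq_of_mul_eq_mul_left hg h2).symm
  have h1 : IsSquare (g ^ 2 * (u * v)) := by
    have h2 : g ^ 2 * (u * v) = (a ^ 3 - 1) * (b ^ 3 - 1) := by
      calc g ^ 2 * (u * v) = (g * u) * (g * v) := by ring
        _ = _ := by rw [← hu, ← hv]
    rw [h2]
    exact hsq
  have h2 := red_sq hg h1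
  obtain ⟨k, hk⟩ := h2
  have hk' : u * v = k ^ 2 := by rw [hk]; ring
  have hk'' : v * u = k ^ 2 := by rw [mul_comm]; exact hk'
  obtain ⟨y, hy'⟩ := exists_eq_pow_of_mul_eq_pow (by
    rw [Nat.isUnit_iff]
    exact hcop) hk'
  obtain ⟨z, hz'⟩ := exists_eq_pow_of_mul_eq_pow (by
    rw [Nat.isUnit_iff]
    exact hcop.symm) hk''
  have hy : u = y * y := by rw [hy']; ring
  have hz : v = z * z := by rw [hz']; ring
  have hy1 : 1 ≤ y := by
    rcases Nat.eq_zero_or_pos y with h | h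
    · subst h
      rw [hy] at hu
      simp at hu
      omega
    · exact h
  refine ⟨y, z, g, hy1, ?_, ?_, ?_⟩
  · by_contra hcon
    have h3 : z ≤ y := not_lt.mp hcon
    have h4 : z * z ≤ y * y := Nat.mul_le_mul h3 h3
    have h5 : g * (z * z) ≤ g * (y * y) := Nat.mul_le_mul_left g h4
    rw [← hy, ← hz, ← hu, ← hv] at h5
    omega
  · rw [sq, ← hy]
    exact hu
  · rw [sq, ← hz]
    exact hv

end Pool.Agent.Helper46.CU
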